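import Pool.Agent.Helper30.UB.St

/-!
# Project UB, module DIC: dyadic decomposition of the prime factors
-/

set_option autoImplicit false

namespace Pool.Agent.Helper77.UB

open Polynomial Finset Pool.Agent.Helper15.FC Pool.Agent.Helper30.UB

private theorem ms_cons {α : Type} (w : α → ℕ) (P : α → Prop) [DecidablePred P] (a : α)
    (s : Multiset α) :
    (((a ::ₘ s).filter P).map w).sum = (if P a then w a else 0) + ((s.filter P).map w).sum := by
  by_cases h : P a
  · rw [Multiset.filter_cons_of_pos _ h, Multiset.map_cons, Multiset.sum_cons, if_pos h]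
  · rw [Multiset.filter_cons_of_neg _ h, if_neg h, zero_add]

/-- Subadditivity of the weights of a multiset. -/
private theorem ms_sub {α : Type} (w : α → ℕ) (P Q R : α → Prop) [DecidablePred P] [DecidablePred Q]
    [DecidablePred R] (h : ∀ x, P x → Q x ∨ R x) (s : Multiset α) :
    ((s.filter P).map w).sum ≤ ((s.filter Q).map w).sum + ((s.filter R).map w).sum := by
  induction s using Multiset.induction with
  | empty => simp
  | cons a s ih =>
    have ha := h a
    rw [ms_cons, ms_cons, ms_cons]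
    split_ifs with h1 h2 h3
    · omega
    · omega
    · omega
    · rcases ha h1 with h4 | h4
      · exact absurd h4 h2
      · exact absurd h4 (by assumption)
    all_goals omega

private theorem ms_bd {α : Type} (w : α → ℕ) (W : ℝ) (s : Multiset α) (h : ∀ x ∈ s, (w x : ℝ) ≤ W) :
    (((s.map w).sum : ℕ) : ℝ) ≤ (Multiset.card s : ℝ) * W := by
  induction s using Multiset.induction with
  | empty => simp
  | cons a s ih =>
    have h1 := h a (Multiset.mem_cons_self a s)
    have h2 := ih fun x hx => h x (Multiset.mem_cons_of_mem hx)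
    rw [Multiset.map_cons, Multiset.sum_cons, Multiset.card_cons, Nat.cast_add, Nat.cast_add,
      Nat.cast_one]
    linarith

section field

variable {F : Type} [Field F] (f : F[X])

private theorem DD_le_add (v w v1 w1 v2 w2 : ℝ)
    (h : ∀ x : ℝ, v < x → x ≤ w → (v1 < x ∧ x ≤ w1) ∨ (v2 < x ∧ x ≤ w2)) :
    DD v w f ≤ DD v1 w1 f + DD v2 w2 f := by
  classical
  unfold DD
  exact ms_sub _ _ _ _ (fun p hp => h _ hp.1 hp.2) _

private theorem DD_empty (v w : ℝ) (h : w ≤ v) : DD v w f = 0 := by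
  classical
  unfold DD
  rw [Multiset.filter_eq_nil.2]
  · simp
  · rintro p - ⟨h1, h2⟩
    linarith

private theorem DD_mono (v w v1 w1 : ℝ) (h : ∀ x : ℝ, v < x → x ≤ w → v1 < x ∧ x ≤ w1) :
    DD v w f ≤ DD v1 w1 f := by
  have h1 := DD_le_add f v w v1 w1 0 0 fun x hx hx' => Or.inl (h x hx hx')
  rwa [DD_empty f 0 0 le_rfl, add_zero] at h1

private theorem DD_cover (Z z : ℝ) (J : ℕ) :
    DD (max Z (z / 2 ^ J)) z f ≤ ∑ j ∈ range J, DD (max Z (z / 2 ^ (j + 1))) (z / 2 ^ j) f := by
  induction J with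
  | zero =>
    rw [DD_empty f _ _ (by rw [pow_zero, div_one]; exact le_max_right _ _)]
    exact Nat.zero_le _
  | succ J ih =>
    rw [Finset.sum_range_succ]
    refine (DD_le_add f _ _ (max Z (z / 2 ^ J)) z (max Z (z / 2 ^ (J + 1))) (z / 2 ^ J) ?_).trans
      (Nat.add_le_add_right ih _)
    intro x h1 h2
    rcases le_or_gt x (z / 2 ^ J) with h3 | h3
    · exact Or.inr ⟨h1, h3⟩
    · exact Or.inl ⟨max_lt (lt_of_le_of_lt (le_max_left _ _) h1) h3, h2⟩

private theorem nf_monic {p : F[X]} (hp : p ∈ nf f) : p.Monic ∧ Irreducible p := by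
  classical
  unfold nf at hp
  have h1 := UniqueFactorizationMonoid.irreducible_of_normalized_factor p hp
  have h2 := UniqueFactorizationMonoid.normalize_normalized_factor p hp
  refine ⟨?_, h1⟩
  rw [← h2]
  exact Polynomial.monic_normalize h1.ne_zero

private theorem nf_prod (s : Multiset F[X]) (hs : ∀ p ∈ s, p.Monic ∧ Irreducible p) :
    nf s.prod = s := by
  classical
  induction s using Multiset.induction with
  | empty =>
    unfold nf
    simp
  | cons a s ih =>
    have ha := hs a (Multiset.mem_cons_self a s)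
    have hs' : ∀ p ∈ s, p.Monic ∧ Irreducible p := fun p hp => hs p (Multiset.mem_cons_of_mem hp)
    have h0 : s.prod ≠ 0 := by
      refine Multiset.prod_ne_zero fun h => ?_
      exact (hs' 0 h).2.ne_zero rfl
    have ih' := ih hs'
    unfold nf at ih' ⊢
    rw [Multiset.prod_cons, UniqueFactorizationMonoid.normalizedFactors_mul ha.2.ne_zero h0, ih',
      UniqueFactorizationMonoid.normalizedFactors_irreducible ha.2, ha.1.normalize_eq_self,
      Multiset.singleton_add]

end field

private theorem geo (J : ℕ) : ∑ j ∈ range J, (3 / 4 : ℝ) ^ j = 4 - 4 * (3 / 4 : ℝ) ^ J := by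
  induction J with
  | zero => simp
  | succ J ih =>
    rw [Finset.sum_range_succ, ih, pow_succ]
    ring

/-- Module DIC. -/
theorem hDIC : StDIC := by
  classical
  intro F _ _ n κ f hn hκ hκ1 hZ hf hD
  set Z : ℝ := Zn F n with hZdef
  have hn' : (16 : ℝ) ≤ n := by exact_mod_cast hn
  have hf0 : f.Monic := (mem_Mn.1 hf).1
  by_cases hQ0 : DD 0 (κ * n) f ≤ n / 4
  · exact Or.inl hQ0
  refine Or.inr ?_
  -- the smooth part is small
  have hsm : ∀ z : ℝ, z ≤ Z → DD 0 z f ≤ n / 4 := by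
    intro z hz
    have h1 : DD 0 z f ≤ DD 0 Z f := DD_mono f 0 z 0 Z fun x h2 h3 => ⟨h2, h3.trans hz⟩
    have h2 : 16 * DD 0 Z f < n := by
      have : 16 * (DD 0 Z f : ℝ) < n := by linarith
      exact_mod_cast this
    omega
  have hex : ∃ i : ℕ, DD 0 (κ * n / 2 ^ i) f ≤ n / 4 := by
    obtain ⟨i, hi⟩ := pow_unbounded_of_one_lt (κ * n) (by norm_num : (1 : ℝ) < 2)
    refine ⟨i, hsm _ ?_⟩
    have : κ * n / 2 ^ i < 1 := by
      rw [div_lt_one (by positivity)]
      exact hi
    linarith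
  obtain ⟨i, hi1, hi2⟩ : ∃ i : ℕ, ¬ DD 0 (κ * n / 2 ^ i) f ≤ n / 4 ∧
      DD 0 (κ * n / 2 ^ (i + 1)) f ≤ n / 4 := by
    have h1 := Nat.find_spec hex
    have h2 : Nat.find hex ≠ 0 := by
      intro h
      rw [h, pow_zero, div_one] at h1
      exact hQ0 h1
    obtain ⟨i, hi⟩ := Nat.exists_eq_succ_of_ne_zero h2
    refine ⟨i, Nat.find_min hex (by omega), ?_⟩
    rwa [hi] at h1
  set z : ℝ := κ * n / 2 ^ i with hz
  have hz0 : 0 < z := by positivity
  have hzZ : Z < z := by
    by_contra h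
    exact hi1 (hsm z (not_lt.1 h))
  have hi3 : (n : ℝ) / 4 < DD 0 z f := by
    have h1 : n < 4 * DD 0 z f := by omega
    have h2 : (n : ℝ) < 4 * DD 0 z f := by exact_mod_cast h1
    linarith
  have hbig : 3 * (n : ℝ) / 16 < DD Z z f := by
    have h1 : DD 0 z f ≤ DD 0 Z f + DD Z z f := by
      refine DD_le_add f 0 z 0 Z Z z fun x h2 h3 => ?_
      rcases le_or_gt x Z with h4 | h4
      · exact Or.inl ⟨h2, h4⟩
      · exact Or.inr ⟨h4, h3⟩
    have h2 : (DD 0 z f : ℝ) ≤ DD 0 Z f + DD Z z f := by exact_mod_cast h1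
    linarith
  -- the pigeonhole
  obtain ⟨j, hj1, hj2⟩ : ∃ j : ℕ, Z < z / 2 ^ j ∧
      (n : ℝ) / 32 * (3 / 4) ^ j < DD (max Z (z / 2 ^ (j + 1))) (z / 2 ^ j) f := by
    by_contra hcon
    push Not at hcon
    obtain ⟨J, hJ⟩ := pow_unbounded_of_one_lt z (by norm_num : (1 : ℝ) < 2)
    have hJ' : z / 2 ^ J ≤ Z := by
      have : z / 2 ^ J < 1 := by
        rw [div_lt_one (by positivity)]
        exact hJ
      linarith
    have h1 := DD_cover f Z z J
    rw [max_eq_left hJ'] at h1
    have h2 : (DD Z z f : ℝ) ≤ ∑ j ∈ range J, (DD (max Z (z / 2 ^ (j + 1))) (z / 2 ^ j) f : ℝ) := by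
      exact_mod_cast h1
    have h3 : ∑ j ∈ range J, (DD (max Z (z / 2 ^ (j + 1))) (z / 2 ^ j) f : ℝ) ≤
        ∑ j ∈ range J, (n : ℝ) / 32 * (3 / 4) ^ j := by
      refine Finset.sum_le_sum fun j _ => ?_
      rcases lt_or_ge Z (z / 2 ^ j) with h4 | h4
      · exact hcon j h4
      · rw [DD_empty f _ _ (h4.trans (le_max_left _ _))]
        push_cast
        positivity
    rw [← Finset.mul_sum, geo] at h3
    have h5 : (0 : ℝ) < (3 / 4) ^ J := by positivity
    have h6 : (n : ℝ) / 32 * (4 - 4 * (3 / 4) ^ J) ≤ n / 32 * 4 := by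
      have : (0 : ℝ) ≤ n / 32 := by positivity
      nlinarith
    linarith
  refine ⟨i, j, hj1, ?_, ?_⟩
  · have e : κ * n / 2 ^ i / 2 = κ * n / 2 ^ (i + 1) := by
      rw [pow_succ, div_div]
    rw [← e] at hi2
    exact hi2
  set K : ℕ := ⌈(2 ^ i / (32 * κ)) * (3 / 2 : ℝ) ^ j⌉₊ with hK
  set w : ℝ := z / 2 ^ j with hw
  have hw0 : 0 < w := by positivity
  set v : ℝ := max Z (z / 2 ^ (j + 1)) with hv
  set T : Multiset F[X] := (nf f).filter (fun p => v < (p.natDegree : ℝ) ∧ (p.natDegree : ℝ) ≤ w)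
    with hT
  have hTd : (DD v w f : ℝ) ≤ (Multiset.card T : ℝ) * w := by
    have h1 := ms_bd natDegree w T (fun p hp => by
      rw [hT, Multiset.mem_filter] at hp
      exact hp.2.2)
    have h2 : DD v w f = (T.map natDegree).sum := by
      unfold DD
      rw [hT]
    rw [h2]
    exact h1
  -- the main identity
  have e1 : (2 ^ i / (32 * κ)) * (3 / 2 : ℝ) ^ j * w = n / 32 * (3 / 4) ^ j := by
    have e2 : (3 / 4 : ℝ) ^ j = (3 / 2 : ℝ) ^ j / 2 ^ j := by
      rw [← div_pow]
      norm_num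
    rw [e2, hw, hz]
    field_simp
  have hKT : K ≤ Multiset.card T := by
    rw [hK, Nat.ceil_le]
    have h1 : (2 ^ i / (32 * κ)) * (3 / 2 : ℝ) ^ j * w ≤ (Multiset.card T : ℝ) * w := by
      rw [e1]
      linarith
    exact le_of_mul_le_mul_right h1 hw0
  -- `K` elements of `T`
  obtain ⟨T', hT'1, hT'2⟩ : ∃ T' : Multiset F[X], T' ≤ T ∧ Multiset.card T' = K := by
    refine ⟨(T.toList.take K : Multiset F[X]), ?_, ?_⟩
    · have h1 : ((T.toList.take K : List F[X]) : Multiset F[X]) ≤ ((T.toList : List F[X]) : Multiset F[X]) :=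
        Multiset.coe_le.2 (List.Sublist.subperm (List.take_sublist _ _))
      rwa [Multiset.coe_toList] at h1
    · rw [Multiset.coe_card, List.length_take, Multiset.length_toList]
      exact min_eq_left hKT
  have hTf : T ≤ nf f := Multiset.filter_le _ _
  have hT'm : ∀ p ∈ T', p.Monic ∧ Irreducible p := fun p hp =>
    nf_monic f (Multiset.mem_of_le (hT'1.trans hTf) hp)
  have hnf : nf T'.prod = T' := nf_prod T' hT'm
  have hT'r : ∀ p ∈ T', v < (p.natDegree : ℝ) ∧ (p.natDegree : ℝ) ≤ w := by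
    intro p hp
    have h1 := Multiset.mem_of_le hT'1 hp
    rw [hT, Multiset.mem_filter] at h1
    exact h1.2
  refine ⟨T'.prod, ?_, ?_, ?_, ?_, ?_⟩
  · have h1 : T'.prod ∣ (nf f).prod := Multiset.prod_dvd_prod_of_le (hT'1.trans hTf)
    have h2 : Associated (nf f).prod f := UniqueFactorizationMonoid.prod_normalizedFactors hf0.ne_zero
    exact h1.trans h2.dvd
  · have h1 : T'.prod.natDegree = (T'.map natDegree).sum :=
      Polynomial.natDegree_multiset_prod_of_monic T' fun p hp => (hT'm p hp).1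
    have h2 := ms_bd natDegree w T' fun p hp => (hT'r p hp).2
    rw [← h1, hT'2] at h2
    have h3 : (K : ℝ) < (2 ^ i / (32 * κ)) * (3 / 2 : ℝ) ^ j + 1 := Nat.ceil_lt_add_one (by positivity)
    have h4 : (K : ℝ) * w ≤ ((2 ^ i / (32 * κ)) * (3 / 2 : ℝ) ^ j + 1) * w :=
      mul_le_mul_of_nonneg_right h3.le hw0.le
    have h5 : ((2 ^ i / (32 * κ)) * (3 / 2 : ℝ) ^ j + 1) * w = n / 32 * (3 / 4) ^ j + w := by
      rw [add_mul, e1, one_mul]
    have h6 : (3 / 4 : ℝ) ^ j ≤ 1 := pow_le_one₀ (by norm_num) (by norm_num)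
    have h7 : w ≤ n / 64 := by
      have h8 : w ≤ z := by
        rw [hw]
        exact div_le_self hz0.le (one_le_pow₀ (by norm_num))
      have h9 : z ≤ κ * n := by
        rw [hz]
        exact div_le_self (by positivity) (one_le_pow₀ (by norm_num))
      have h10 : κ * n ≤ 1 / 64 * n := mul_le_mul_of_nonneg_right hκ1 (by linarith)
      linarith
    have h8 : (n : ℝ) / 32 * (3 / 4) ^ j ≤ n / 32 := by
      have : (0 : ℝ) ≤ n / 32 := by positivity
      nlinarith
    have h9 : 16 * (T'.prod.natDegree : ℝ) ≤ n := by linarith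
    exact_mod_cast h9
  · have h1 := Polynomial.monic_multiset_prod_of_monic T' id fun p hp => (hT'm p hp).1
    rwa [Multiset.map_id] at h1
  · rw [hnf, hT'2]
  · rw [hnf]
    exact hT'r

end Pool.Agent.Helper77.UB
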